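import Pool.Agent.H77.PM.Targets

/-!
# Row TLL of pmh_modules: the list form of a code (helper6)
-/

set_option autoImplicit false

open Set Filter Topology

namespace Pool.Agent.H6.PM

open Pool.Agent.H77.PM

/-- Row TLL. -/
theorem pf_TLL : T_TLL := by
  intro ι ar Z _ c
  refine ⟨?_, ?_, ?_, ?_⟩
  · intro x
    refine Prod.ext ?_ ?_
    · funext i j
      rfl
    · funext i a
      change (if ar i = 0 then (tilL c x [0]).2 i else (tilL c x (List.ofFn a)).2 i) = x.2 i a
      split_ifs with h0
      · change x.2 i _ = x.2 i a
        refine congrArg (x.2 i) (funext fun j => ?_)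
        exact absurd j.2 (by omega)
      · have hlen : (List.ofFn a).length = ar i := List.length_ofFn
        cases hl : List.ofFn a with
        | nil =>
          rw [hl] at hlen
          exact absurd hlen.symm h0
        | cons h' t =>
          change x.2 i (fun j : Fin (ar i) => (h' :: t).getD (j : ℕ) h') = x.2 i a
          refine congrArg (x.2 i) (funext fun j => ?_)
          rw [← hl]
          have hj : (j : ℕ) < (List.ofFn a).length := by rw [hlen]; exact j.2
          rw [List.getD_eq_getElem _ _ hj, List.getElem_ofFn]
  · intro x g l
    cases l with
    | nil => rfl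
    | cons h t =>
      change (((re x g).1 h (t.headD h), fun i => (re x g).2 i
          fun j : Fin (ar i) => (h :: t).getD (j : ℕ) h) : ℝ × (ι → Z)) =
        (x.1 (g h) ((t.map g).headD (g h)), fun i => x.2 i
          fun j : Fin (ar i) => (g h :: t.map g).getD (j : ℕ) (g h))
      refine Prod.ext ?_ ?_
      · change x.1 (g h) (g (t.headD h)) = x.1 (g h) ((t.map g).headD (g h))
        cases t <;> rfl
      · funext i
        change x.2 i (g ∘ fun j : Fin (ar i) => (h :: t).getD (j : ℕ) h) = x.2 i _
        refine congrArg (x.2 i) (funext fun j => ?_)
        change g ((h :: t).getD (j : ℕ) h) = ((h :: t).map g).getD (j : ℕ) (g h)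
        rw [List.getD_map]
  · rw [measurable_pi_iff]
    intro l
    cases l with
    | nil => exact measurable_const
    | cons h t =>
      change Measurable fun x : Code ι ar Z => ((x.1 h (t.headD h), fun i => x.2 i
          fun j : Fin (ar i) => (h :: t).getD (j : ℕ) h) : ℝ × (ι → Z))
      refine Measurable.prodMk ?_ ?_
      · exact (measurable_pi_apply _).comp ((measurable_pi_apply _).comp measurable_fst)
      · rw [measurable_pi_iff]
        intro i
        exact (measurable_pi_apply _).comp ((measurable_pi_apply _).comp measurable_snd)
  · refine Measurable.prodMk ?_ ?_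
    · rw [measurable_pi_iff]
      intro i
      rw [measurable_pi_iff]
      intro j
      exact measurable_fst.comp (measurable_pi_apply _)
    · rw [measurable_pi_iff]
      intro i
      rw [measurable_pi_iff]
      intro a
      change Measurable fun y : ListStructure (ℝ × (ι → Z)) =>
        if ar i = 0 then (y [0]).2 i else (y (List.ofFn a)).2 i
      split_ifs with h0
      · exact (measurable_pi_apply _).comp (measurable_snd.comp (measurable_pi_apply _))
      · exact (measurable_pi_apply _).comp (measurable_snd.comp (measurable_pi_apply _))

end Pool.Agent.H6.PM
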